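import Pool.Agent.H207.BT.Stm5
import Pool.Agent.H747.HY211.CHO

/-!
# Project BT: the number of periodic points (helper971)
-/

set_option autoImplicit false

open Topology Filter Metric Set MeasureTheory Polynomial

namespace Pool.Agent.H971.BT207

open Pool.Agent.H790R3.RB Pool.Agent.H211.HY

theorem N2_smul (a : ℂ) (p : ℂ × ℂ) : N2 (a • p) = ‖a‖ ^ 2 * N2 p := by
  unfold N2
  simp only [Prod.smul_fst, Prod.smul_snd, smul_eq_mul, norm_mul]
  ring

theorem N2_pos {p : ℂ × ℂ} (hp : p ≠ 0) : 0 < N2 p := by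
  unfold N2
  rcases eq_or_ne p.1 0 with h1 | h1
  · have h2 : p.2 ≠ 0 := fun h2 => hp (Prod.ext h1 h2)
    have := norm_pos_iff.2 h2
    positivity
  · have := norm_pos_iff.2 h1
    positivity

/-- a double zero has multiplier one -/
theorem double {d : ℕ} (x : CV d) (hd : 2 ≤ d) (hx : ND x) (n : ℕ) (h : ℂ → ℂ × ℂ) (z : ℂ)
    (h' : ℂ × ℂ) (hh : HasDerivAt h h' z) (hz : h z ≠ 0) (hcr : cr h' (h z) ≠ 0)
    (h0 : cr ((hF x)^[n] (h z)) (h z) = 0)
    (h1 : HasDerivAt (fun ζ => cr ((hF x)^[n] (h ζ)) (h ζ)) 0 z) : sdn x n (h z) = 1 := by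
  have hF1 : Differentiable ℂ (fun p : ℂ × ℂ => (hF x)^[n] p) := by
    have e1 : Differentiable ℂ (fun p : ℂ × ℂ => (x, p)) := by fun_prop
    exact (hF_iter_differentiable d n).comp e1
  obtain ⟨g, hg⟩ : ∃ g : ℂ → ℂ × ℂ, g = fun ζ => (hF x)^[n] (h ζ) := ⟨_, rfl⟩
  have hgd : DifferentiableAt ℂ g z := by
    rw [hg]
    exact (hF1 (h z)).comp z hh.differentiableAt
  obtain ⟨g', hg'⟩ : ∃ g', g' = deriv g z := ⟨_, rfl⟩
  have hgh : HasDerivAt g g' z := by rw [hg']; exact hgd.hasDerivAt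
  have hgz : g z = (hF x)^[n] (h z) := by rw [hg]
  -- derivative of the cross product
  have hΦ : HasDerivAt (fun ζ => cr (g ζ) (h ζ)) (cr g' (h z) + cr (g z) h') z := by
    have a1 : HasDerivAt (fun ζ => (g ζ).1) g'.1 z := hgh.fst
    have a2 : HasDerivAt (fun ζ => (g ζ).2) g'.2 z := hgh.snd
    have b1 : HasDerivAt (fun ζ => (h ζ).1) h'.1 z := hh.fst
    have b2 : HasDerivAt (fun ζ => (h ζ).2) h'.2 z := hh.snd
    have e1 := (a1.mul b2).sub (a2.mul b1)
    have e2 : cr g' (h z) + cr (g z) h' =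
        g'.1 * (h z).2 + (g z).1 * h'.2 - (g'.2 * (h z).1 + (g z).2 * h'.1) := by
      unfold cr; ring
    rw [e2]
    exact e1
  have hz0 : cr g' (h z) + cr (g z) h' = 0 := by
    rw [hg] at hΦ
    rw [hg]
    exact hΦ.unique h1
  have hgne : g z ≠ 0 := by rw [hgz]; exact hx.iter_ne n hz
  obtain ⟨a, ha, hab⟩ := (cr_eq_zero_iff hgne hz).1 (by rw [hgz]; exact h0)
  have e3 : cr g' (g z) = a ^ 2 * cr h' (h z) := by
    have e4 : cr g' (h z) = - cr (g z) h' := by linear_combination hz0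
    rw [hab, cr_smul_right, e4, hab, cr_smul_left, cr_comm (h z) h']
    ring
  have hc := (Pool.Agent.H747.HY211.t_CHO.2.2.2.2 d x hd hx).1 h z n hh.differentiableAt hz
  have hs1 : spd (fun w => (hF x)^[n] (h w)) z = spd h z := by
    rw [← hg]
    unfold spd
    rw [← hg', e3, hab, N2_smul, hh.deriv, norm_mul, norm_pow]
    have ha' : ‖a‖ ^ 2 ≠ 0 := pow_ne_zero 2 (norm_ne_zero_iff.2 ha)
    exact mul_div_mul_left _ _ ha'
  have hs2 : spd h z ≠ 0 := by
    unfold spd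
    rw [hh.deriv]
    exact div_ne_zero (norm_ne_zero_iff.2 hcr) (N2_pos hz).ne'
  rw [hs1] at hc
  have : (sdn x n (h z) - 1) * spd h z = 0 := by linarith
  rcases mul_eq_zero.1 this with h5 | h5
  · linarith
  · exact absurd h5 hs2

/-- the iterates are polynomials -/
theorem polys {d : ℕ} (x : CV d) (n : ℕ) : ∃ P Q : ℂ[X], ∀ ζ : ℂ,
    (hF x)^[n] (ζ, 1) = (P.eval ζ, Q.eval ζ) := by
  induction n with
  | zero => exact ⟨X, 1, fun ζ => by simp⟩
  | succ n ih =>
    obtain ⟨P, Q, h⟩ := ih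
    refine ⟨∑ j : Fin (d + 1), C (x (0, j)) * (P ^ (j : ℕ) * Q ^ (d - (j : ℕ))),
      ∑ j : Fin (d + 1), C (x (1, j)) * (P ^ (j : ℕ) * Q ^ (d - (j : ℕ))), fun ζ => ?_⟩
    rw [Function.iterate_succ_apply', h ζ]
    unfold hF
    simp only [eval_finsetSum, eval_mul, eval_C, eval_pow]

theorem t_CNT : Pool.Agent.H207.BT.S_CNT := by
  intro d x hd hx hrep n hn
  obtain ⟨P, Q, hPQ⟩ := polys x n
  obtain ⟨A, hA⟩ : ∃ A : ℂ[X], A = P - Q * X := ⟨_, rfl⟩
  have hAe : ∀ ζ, A.eval ζ = cr ((hF x)^[n] (ζ, 1)) (ζ, 1) := by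
    intro ζ
    rw [hA, hPQ]
    unfold cr
    simp
  -- simple zeros
  have hsimple : ∀ ξ, A.eval ξ = 0 → (derivative A).eval ξ ≠ 0 := by
    intro ξ h0 h1
    have e0 : ((ξ, 1) : ℂ × ℂ) ≠ 0 := by simp
    have e1 : HasDerivAt (fun ζ : ℂ => ((ζ, 1) : ℂ × ℂ)) (1, 0) ξ :=
      (hasDerivAt_id ξ).prodMk (hasDerivAt_const ξ 1)
    have e2 : HasDerivAt (fun ζ => cr ((hF x)^[n] (ζ, 1)) (ζ, 1)) 0 ξ := by
      have e3 := A.hasDerivAt ξ
      rw [h1] at e3
      have e4 : (fun ζ => cr ((hF x)^[n] (ζ, 1)) (ζ, 1)) = fun ζ => A.eval ζ :=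
        funext (fun ζ => (hAe ζ).symm)
      rw [e4]
      exact e3
    have e5 : cr ((hF x)^[n] (ξ, 1)) (ξ, 1) = 0 := by rw [← hAe, h0]
    have e6 := double x hd hx n (fun ζ => (ζ, 1)) ξ (1, 0) e1 e0 (by simp [cr]) e5 e2
    have e7 := hrep (ξ, 1) n e0 hn e5
    linarith
  have hA0 : A ≠ 0 := by
    intro h
    exact hsimple 0 (by rw [h]; simp) (by rw [h]; simp)
  -- the degree
  have hdeg : d ^ n ≤ A.natDegree := by
    by_contra hlt
    push Not at hlt
    obtain ⟨R, hR⟩ : ∃ R : ℂ[X], R = ∑ k ∈ Finset.range (A.natDegree + 1),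
        C (A.coeff k) * X ^ (d ^ n - k) := ⟨_, rfl⟩
    have hR0 : R.eval 0 = 0 := by
      rw [hR, eval_finsetSum]
      refine Finset.sum_eq_zero (fun k hk => ?_)
      rw [Finset.mem_range] at hk
      have : d ^ n - k ≠ 0 := by omega
      simp [this]
    have hcont : Continuous (fun w : ℂ => cr ((hF x)^[n] (1, w)) (1, w)) := by
      have e1 : Continuous (fun w : ℂ => (x, ((1, w) : ℂ × ℂ))) := by fun_prop
      have e2 : Continuous (fun w : ℂ => (hF x)^[n] (1, w)) :=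
        (hF_iter_continuous d n).comp e1
      unfold cr
      fun_prop
    have hBw : (fun w : ℂ => cr ((hF x)^[n] (1, w)) (1, w)) = fun w => w * R.eval w := by
      refine Continuous.ext_on (dense_compl_singleton (0:ℂ)) hcont
        (continuous_id.mul R.continuous) ?_
      intro w hw
      have hw0 : w ≠ 0 := hw
      simp only
      have e1 : ((1, w) : ℂ × ℂ) = w • ((w⁻¹, 1) : ℂ × ℂ) := by
        simp [hw0]
      have e2 : cr ((hF x)^[n] (1, w)) (1, w) = w ^ (d ^ n) * (w * A.eval w⁻¹) := by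
        rw [hAe, e1, hF_iter_smul, cr_smul_left, cr_smul_right]
      rw [e2, eval_eq_sum_range, hR, eval_finsetSum]
      have e3 : w ^ d ^ n * (w * ∑ i ∈ Finset.range (A.natDegree + 1), A.coeff i * w⁻¹ ^ i) =
          w * ∑ i ∈ Finset.range (A.natDegree + 1), w ^ d ^ n * (A.coeff i * w⁻¹ ^ i) := by
        rw [← Finset.mul_sum]
        ring
      rw [e3]
      congr 1
      refine Finset.sum_congr rfl (fun k hk => ?_)
      rw [Finset.mem_range] at hk
      have hk2 : k ≤ d ^ n := by omega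
      simp only [eval_mul, eval_C, eval_pow, eval_X]
      rw [inv_pow]
      have e4 : w ^ d ^ n = w ^ (d ^ n - k) * w ^ k := by
        rw [← pow_add, Nat.sub_add_cancel hk2]
      rw [e4]
      field_simp
    have e0 : ((1, 0) : ℂ × ℂ) ≠ 0 := by simp
    have e1 : HasDerivAt (fun ζ : ℂ => ((1, ζ) : ℂ × ℂ)) (0, 1) 0 :=
      (hasDerivAt_const 0 1).prodMk (hasDerivAt_id 0)
    have e2 : HasDerivAt (fun w : ℂ => cr ((hF x)^[n] (1, w)) (1, w)) 0 0 := by
      rw [hBw]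
      have e3 := (hasDerivAt_id (0:ℂ)).mul (R.hasDerivAt 0)
      simp only [id, hR0, mul_zero, zero_mul, add_zero] at e3
      exact e3
    have e5 : cr ((hF x)^[n] (1, 0)) (1, 0) = 0 := by
      have := congrFun hBw 0
      simpa using this
    have e6 := double x hd hx n (fun ζ => (1, ζ)) 0 (0, 1) e1 e0 (by simp [cr]) e5 e2
    have e7 := hrep (1, 0) n e0 hn e5
    linarith
  have hnod : A.roots.Nodup := by
    rw [Multiset.nodup_iff_count_le_one]
    intro ξ
    rw [count_roots]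
    by_contra hlt
    push Not at hlt
    obtain ⟨h1, h2⟩ := (one_lt_rootMultiplicity_iff_isRoot hA0).1 hlt
    exact hsimple ξ h1 h2
  refine ⟨A.roots.toFinset, ?_, ?_⟩
  · rw [Multiset.toFinset_card_of_nodup hnod]
    have := (IsAlgClosed.splits A).natDegree_eq_card_roots
    rw [← this]
    exact hdeg
  · intro ξ hξ
    rw [Multiset.mem_toFinset, mem_roots hA0] at hξ
    rw [← hAe]
    exact hξ

end Pool.Agent.H971.BT207
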